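import Pool.Agent.TH703.HU.Fin2
import Pool.Agent.TH169.HU.A04
import Pool.Agent.TH959.HU.A12
import Pool.Agent.TH554.HU.A3
import Pool.Agent.TH416.HU.B12
import Pool.Agent.TH359.HU.B3
import Pool.Agent.TH89.HU.B4
import Pool.Agent.TH763.HU.B5
import Pool.Agent.TH802.HU.C9
import Pool.Agent.TH993.HU.B6
import Pool.Agent.TH805.HU.B7
import Pool.Agent.TH340.HU.B8
import Pool.Agent.TH859.HU.B9
import Pool.Agent.TH626.HU.C0
import Pool.Agent.TH626.HU.C12
import Pool.Agent.TH81.HU.C1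
import Pool.Agent.TH742.HU.C2
import Pool.Agent.TH663.HU.C3
import Pool.Agent.TH283.HU.C4
import Pool.Agent.TH616.HU.C5
import Pool.Agent.TH360.HU.C6
import Pool.Agent.TH584.HU.C7
import Pool.Agent.TH914.HU.C8
import Pool.Agent.TH990.HU.C13
import Pool.Agent.TH28.HU.Ode

set_option autoImplicit false

/-!
# MP_b478d8_an, Q1: the convex hull of an isoperimetric set in a convex body can be everything

`Per Ω E` is the relative perimeter, `IsIso Ω E α` says that `E` is an isoperimetric set of volume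
fraction `α` relative to `Ω`, and `dens1 Ω E` is the canonical representative of `E` (the points of
`Ω` of Lebesgue density one).  Both (a) and (b) of the problem are false.
-/

open MeasureTheory Set Metric Filter Topology
open scoped ENNReal Real

namespace Pool.Agent.Results.MP_b478d8_an.FullConvexHull

open Pool.Agent.TH703.HU

theorem result :
    (∃ (n : ℕ) (Ω E : Set (EuclideanSpace ℝ (Fin n))) (α : ℝ), 1 ≤ n ∧ IsOpen Ω ∧ Convex ℝ Ω ∧
      Bornology.IsBounded Ω ∧ Ω.Nonempty ∧ 0 < α ∧ α < 1 ∧ IsIso Ω E α ∧ Per Ω E < ⊤ ∧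
      convexHull ℝ (dens1 Ω E) = Ω) ∧
    ¬ (∀ (n : ℕ) (α : ℝ), 1 ≤ n → 0 < α → α < 1 → ∃ c : ℝ, 0 < c ∧
      ∀ Ω E : Set (EuclideanSpace ℝ (Fin n)), IsOpen Ω → Convex ℝ Ω → Bornology.IsBounded Ω →
        Ω.Nonempty → IsIso Ω E α →
        volume (convexHull ℝ (dens1 Ω E)) ≤ ENNReal.ofReal (1 - c) * volume Ω) := by
  have a0 := Pool.Agent.TH169.HU.a0
  have a4 := Pool.Agent.TH169.HU.a4 a0
  have a1 := Pool.Agent.TH959.HU.a1'
  have a2 := Pool.Agent.TH959.HU.a2'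
  have a3 := Pool.Agent.TH554.HU.a3'
  have b1 := Pool.Agent.TH416.HU.b1
  have b2 := Pool.Agent.TH416.HU.b2
  have b3 := Pool.Agent.TH359.HU.b3 b1 b2
  have b4 := Pool.Agent.TH89.HU.b4
  have b5 := Pool.Agent.TH763.HU.b5
  have b6 := Pool.Agent.TH993.HU.b6
  have c10 := Pool.Agent.TH28.HU.c10
  have c11 := Pool.Agent.TH28.HU.c11
  have b7 := Pool.Agent.TH805.HU.b7 b5 b6 c10
  have c0 := Pool.Agent.TH626.HU.c0
  have b8 := Pool.Agent.TH340.HU.b8 a0 a1 a2 a3 b1 b2 b4 c0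
  have b9 := Pool.Agent.TH859.HU.b9
  have c1 := Pool.Agent.TH81.HU.c1 c0
  have c2 := Pool.Agent.TH742.HU.c2
  have c3 := Pool.Agent.TH663.HU.c3
  have c4 := Pool.Agent.TH283.HU.c4 c2 c3
  have c5 := Pool.Agent.TH616.HU.c5 c0 c1 c2 c3
  have c6 := Pool.Agent.TH360.HU.c6 c0 c1 c2 c3
  have c7 := Pool.Agent.TH584.HU.c7 c0 c1
  have c8 := Pool.Agent.TH914.HU.c8 c0 c1
  have c9 := Pool.Agent.TH802.HU.c9
  have c12 := Pool.Agent.TH626.HU.c12
  have c13 := Pool.Agent.TH990.HU.c13 c0 c1 c4 c5 c6 c7 c8 c9 c10 c11 c12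
  exact final a0 a1 a2 a4 b3 b7 b8 b9 c0 c13

end Pool.Agent.Results.MP_b478d8_an.FullConvexHull
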